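import Pool.Agent.V1173.Opa.Main

/-!
# MP_48c50a: no zero-free sector

There is a (non-increasing) weight `ω` for which the cyclic function `f = (1+z)²` has zeros of its
optimal polynomial approximants in every sector with vertex `1`.
-/

open Pool.Agent.V1173.Opa Polynomial

namespace Pool.Agent.Results.MP_48c50a_an.NoFreeSector

/-- Question 1: for every weight, every cyclic `f` and every `ζ ∈ 𝕋` there is a sector with vertex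
`ζ` which contains no zero of any optimal polynomial approximant of `1/f`. -/
def Q1 : Prop :=
  ∀ ω : ℕ → ℝ, IsWeight ω → ∀ f : PowerSeries ℂ, Cyclic ω f → ∀ ζ : ℂ, ‖ζ‖ = 1 →
    ∃ ρ > 0, ∃ θ₁ θ₂ : ℝ, θ₁ < θ₂ ∧
      ∀ (n : ℕ) (q : ℂ[X]), IsOPA ω f n q → ∀ z ∈ sector ζ ρ θ₁ θ₂, q.eval z ≠ 0

theorem result : ¬ Q1 ∧
    ∃ ω : ℕ → ℝ, IsWeight ω ∧ (∀ k, ω (k + 1) ≤ ω k) ∧
      Cyclic ω (((1 + X) ^ 2 : ℂ[X]) : PowerSeries ℂ) ∧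
      ∀ ρ > 0, ∀ θ₁ θ₂ : ℝ, θ₁ < θ₂ → ∃ (n : ℕ) (q : ℂ[X]),
        IsOPA ω (((1 + X) ^ 2 : ℂ[X]) : PowerSeries ℂ) n q ∧
        ∃ z ∈ sector 1 ρ θ₁ θ₂, q.eval z = 0 := by
  refine ⟨fun h => ?_, main⟩
  obtain ⟨ω, hω, -, hcyc, hsec⟩ := main
  obtain ⟨ρ, hρ, θ₁, θ₂, hθ, hq⟩ := h ω hω _ hcyc 1 norm_one
  obtain ⟨n, q, hopa, z, hz, hz0⟩ := hsec ρ hρ θ₁ θ₂ hθ
  exact hq n q hopa z hz hz0

end Pool.Agent.Results.MP_48c50a_an.NoFreeSector
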